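import Mathlib

/-!
# MP_dca5dd_al, Q1: the length bound for `(A, C)`-commutative `n`-ary algebras

Every `k`-dimensional `(A, C)`-commutative `n`-ary algebra (`k ≥ 1`, `|A| ≠ 1`) has length at most
`F_{N_{n,a}}(k)`.
-/

set_option autoImplicit false

namespace Pool.Agent.Results.MP_dca5dd_al.LengthBound

/-- The generalised Fibonacci numbers `F_N(m)` for `N = p₁^{e 0} p₂^{e 1} ⋯ p_r^{e (r-1)}`:
`F_N(m) = 1` for `m ≤ r` and `F_N(m) = e 0 * F_N(m - 1) + ⋯ + e (r-1) * F_N(m - r)` otherwise. -/
def genFib (r : ℕ) (e : ℕ → ℕ) (m : ℕ) : ℕ :=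
  if _h : m ≤ r then 1 else ∑ i : Fin r, e i * genFib r e (m - (i + 1))
termination_by m
decreasing_by omega

/-- The number `a`: it is `|A|` if `|A| ≥ 2` and `1` otherwise. -/
def aNum {n : ℕ} (A : Finset (Fin n)) : ℕ := if 2 ≤ A.card then A.card else 1

/-- The exponent vector of `N_{n,a} = 2^{n-a+1} ⋅ 3 ⋅ 5 ⋯ p_a`. -/
def expo (n a : ℕ) (i : ℕ) : ℕ := if i = 0 then n - a + 1 else 1

section defs

variable {K : Type} [Field K] {V : Type} [AddCommGroup V] [Module K V] {n : ℕ}

/-- `(A, C)`-commutativity of an `n`-ary multiplication. -/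
def ACCommutative (μ : MultilinearMap K (fun _ : Fin n => V) V) (A C : Finset (Fin n)) : Prop :=
  (∀ i ∈ A, ∀ j ∈ A, i ≠ j → ∀ x : Fin n → V, μ (x ∘ Equiv.swap i j) = - μ x) ∧
  (∀ i ∈ C, ∀ j ∈ C, i ≠ j → ∀ x : Fin n → V, μ (x ∘ Equiv.swap i j) = μ x)

/-- `IsWord μ S l v`: the element `v` is (the value of) a word of length `l` in `S`. -/
inductive IsWord (μ : MultilinearMap K (fun _ : Fin n => V) V) (S : Set V) : ℕ → V → Prop
  | base (s : V) (hs : s ∈ S) : IsWord μ S 1 s
  | op (w : Fin n → V) (l : Fin n → ℕ) (h : ∀ i, IsWord μ S (l i) (w i)) :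
      IsWord μ S (∑ i, l i) (μ w)

/-- `𝓛_i(S)`, the span of the words of length at most `i`. -/
def LL (μ : MultilinearMap K (fun _ : Fin n => V) V) (S : Set V) (i : ℕ) : Submodule K V :=
  Submodule.span K {v | ∃ l ≤ i, IsWord μ S l v}

/-- `l(S)`. -/
noncomputable def lenS (μ : MultilinearMap K (fun _ : Fin n => V) V) (S : Set V) : ℕ :=
  sInf {i | 1 ≤ i ∧ LL μ S i = ⊤}

/-- The length of the algebra: the supremum of `l(S)` over all finite `S` with
`⋃ 𝓛_i(S)` the whole algebra. -/
noncomputable def algLength (μ : MultilinearMap K (fun _ : Fin n => V) V) : ℕ∞ :=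
  ⨆ (S : Set V) (_ : S.Finite ∧ ∀ v : V, ∃ i, v ∈ LL μ S i), (lenS μ S : ℕ∞)

end defs

section fib

theorem genFib_small {r : ℕ} {e : ℕ → ℕ} {m : ℕ} (h : m ≤ r) : genFib r e m = 1 := by
  rw [genFib, dif_pos h]

theorem genFib_large {r : ℕ} {e : ℕ → ℕ} {m : ℕ} (h : r < m) :
    genFib r e m = ∑ i ∈ Finset.range r, e i * genFib r e (m - (i + 1)) := by
  rw [genFib, dif_neg (by omega), Finset.sum_range]

theorem genFib_mono {r : ℕ} {e : ℕ → ℕ} (hr : 0 < r) (he : 1 ≤ e 0) :
    Monotone (genFib r e) := by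
  apply monotone_nat_of_le_succ
  intro m
  rcases lt_or_ge m r with h | h
  · rw [genFib_small h.le, genFib_small (show m + 1 ≤ r by omega)]
  · rw [genFib_large (show r < m + 1 by omega)]
    refine le_trans ?_ (Finset.single_le_sum (fun _ _ => Nat.zero_le _) (Finset.mem_range.mpr hr))
    rw [zero_add, Nat.add_sub_cancel]
    exact Nat.le_mul_of_pos_left _ he

theorem genFib_pos {r : ℕ} {e : ℕ → ℕ} (hr : 0 < r) (he : 1 ≤ e 0) (m : ℕ) :
    1 ≤ genFib r e m := by
  have := genFib_mono hr he (Nat.zero_le m)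
  rwa [genFib_small (Nat.zero_le r)] at this

/-- Sum of a monotone function over a set of `a` numbers below `j`. -/
theorem sum_top (G : ℕ → ℕ) (hG : Monotone G) (a : ℕ) : ∀ (j : ℕ) (T : Finset ℕ), T.card = a →
    (∀ t ∈ T, t < j) → ∑ t ∈ T, G t ≤ ∑ s ∈ Finset.range a, G (j - (s + 1)) := by
  induction a with
  | zero =>
    intro j T hT _
    rw [Finset.card_eq_zero] at hT
    simp [hT]
  | succ a ih =>
    intro j T hT hj
    have hne : T.Nonempty := Finset.card_pos.mp (by omega)
    set M := T.max' hne with hM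
    have hMT : M ∈ T := T.max'_mem hne
    have h1 := ih (j - 1) (T.erase M) (by rw [Finset.card_erase_of_mem hMT]; omega) (by
      intro t ht
      have h2 : t ≤ M := T.le_max' t (Finset.mem_of_mem_erase ht)
      have h3 : t ≠ M := Finset.ne_of_mem_erase ht
      have h4 := hj M hMT
      omega)
    rw [Finset.sum_range_succ', ← Finset.sum_erase_add T G hMT]
    refine Nat.add_le_add (h1.trans (le_of_eq ?_)) (hG ?_)
    · apply Finset.sum_congr rfl
      intro s _
      congr 1
      omega
    · have := hj M hMT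
      omega

end fib

section main

variable {K : Type} [Field K] {V : Type} [AddCommGroup V] [Module K V] {n : ℕ}
variable {μ : MultilinearMap K (fun _ : Fin n => V) V} {S : Set V}

theorem word_pos (hn : 1 ≤ n) {l : ℕ} {v : V} (h : IsWord μ S l v) : 1 ≤ l := by
  induction h with
  | base s hs => exact le_rfl
  | op w l h ih =>
    refine le_trans (ih ⟨0, hn⟩) (Finset.single_le_sum (f := l) (fun _ _ => Nat.zero_le _)
      (Finset.mem_univ _))

/-- Multilinear expansion. -/
theorem expand (U : Submodule K V) (T : Fin n → Set V)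
    (h : ∀ x : Fin n → V, (∀ i, x i ∈ T i) → μ x ∈ U) (w : Fin n → V)
    (hw : ∀ i, w i ∈ Submodule.span K (T i)) : μ w ∈ U := by
  classical
  have key : ∀ (s : Finset (Fin n)) (x : Fin n → V), (∀ i ∈ s, x i ∈ Submodule.span K (T i)) →
      (∀ i ∉ s, x i ∈ T i) → μ x ∈ U := by
    intro s
    induction s using Finset.induction_on with
    | empty => intro x _ hx; exact h x (fun i => hx i (by simp))
    | insert i₀ s hi₀ ih =>
      intro x hx hx'
      have h1 : ∀ v ∈ Submodule.span K (T i₀), μ (Function.update x i₀ v) ∈ U := by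
        intro v hv
        induction hv using Submodule.span_induction with
        | mem v hv =>
          apply ih
          · intro i hi
            have hne : i ≠ i₀ := fun h => hi₀ (h ▸ hi)
            rw [Function.update_of_ne hne]
            exact hx i (Finset.mem_insert_of_mem hi)
          · intro i hi
            by_cases hii : i = i₀
            · rw [hii, Function.update_self]; exact hv
            · rw [Function.update_of_ne hii]
              exact hx' i (by rw [Finset.mem_insert]; tauto)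
        | zero => rw [MultilinearMap.map_update_zero]; exact U.zero_mem
        | add a b _ _ ha hb => rw [MultilinearMap.map_update_add]; exact U.add_mem ha hb
        | smul c a _ ha => rw [MultilinearMap.map_update_smul]; exact U.smul_mem c ha
      have h2 := h1 (x i₀) (hx i₀ (Finset.mem_insert_self _ _))
      rwa [Function.update_eq_self] at h2
  exact key Finset.univ w (fun i _ => hw i) (fun i hi => absurd (Finset.mem_univ i) hi)

/-- The greedy choice of a new word. -/
theorem greedy (hS : ∀ v : V, ∃ i, v ∈ LL μ S i) (U : Submodule K V) (hU : U ≠ ⊤) :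
    ∃ p : V × ℕ, IsWord μ S p.2 p.1 ∧ p.1 ∉ U ∧ ∀ l v, l < p.2 → IsWord μ S l v → v ∈ U := by
  classical
  have hex : ∃ l, ∃ v, IsWord μ S l v ∧ v ∉ U := by
    by_contra hcon
    push Not at hcon
    apply hU
    rw [eq_top_iff]
    intro v _
    obtain ⟨i, hi⟩ := hS v
    have : LL μ S i ≤ U := by
      rw [LL, Submodule.span_le]
      rintro u ⟨l, -, hl⟩
      exact hcon l u hl
    exact this hi
  obtain ⟨v, hv, hvU⟩ := Nat.find_spec hex
  refine ⟨(v, Nat.find hex), hv, hvU, ?_⟩
  intro l u hl hu
  by_contra hcon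
  exact Nat.find_min hex hl ⟨u, hu, hcon⟩

open Classical in
/-- A chosen new word and its length. -/
noncomputable def pick (μ : MultilinearMap K (fun _ : Fin n => V) V) (S : Set V)
    (hS : ∀ v : V, ∃ i, v ∈ LL μ S i) (U : Submodule K V) : V × ℕ :=
  if h : U ≠ ⊤ then Classical.choose (greedy hS U h) else (0, 0)

theorem pick_spec (hS : ∀ v : V, ∃ i, v ∈ LL μ S i) (U : Submodule K V) (h : U ≠ ⊤) :
    IsWord μ S (pick μ S hS U).2 (pick μ S hS U).1 ∧ (pick μ S hS U).1 ∉ U ∧
      ∀ l v, l < (pick μ S hS U).2 → IsWord μ S l v → v ∈ U := by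
  unfold pick
  rw [dif_pos h]
  exact Classical.choose_spec (greedy hS U h)

/-- The spans of the first chosen words. -/
noncomputable def UU (μ : MultilinearMap K (fun _ : Fin n => V) V) (S : Set V)
    (hS : ∀ v : V, ∃ i, v ∈ LL μ S i) : ℕ → Submodule K V
  | 0 => ⊥
  | j + 1 => UU μ S hS j ⊔ Submodule.span K {(pick μ S hS (UU μ S hS j)).1}

/-- The chosen words. -/
noncomputable def bb (μ : MultilinearMap K (fun _ : Fin n => V) V) (S : Set V)
    (hS : ∀ v : V, ∃ i, v ∈ LL μ S i) (j : ℕ) : V := (pick μ S hS (UU μ S hS j)).1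

/-- The lengths of the chosen words. -/
noncomputable def mm (μ : MultilinearMap K (fun _ : Fin n => V) V) (S : Set V)
    (hS : ∀ v : V, ∃ i, v ∈ LL μ S i) (j : ℕ) : ℕ := (pick μ S hS (UU μ S hS j)).2

theorem UU_eq (hS : ∀ v : V, ∃ i, v ∈ LL μ S i) (j : ℕ) :
    UU μ S hS j = Submodule.span K {v | ∃ t < j, v = bb μ S hS t} := by
  induction j with
  | zero => simp [UU]
  | succ j ih =>
    rw [UU, ih, ← Submodule.span_union]
    congr 1
    ext v
    simp only [Set.mem_union, Set.mem_setOf_eq, Set.mem_singleton_iff]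
    constructor
    · rintro (⟨t, ht, rfl⟩ | h)
      · exact ⟨t, by omega, rfl⟩
      · refine ⟨j, by omega, ?_⟩
        rw [h, bb, ih]
    · rintro ⟨t, ht, rfl⟩
      rcases Nat.lt_succ_iff_lt_or_eq.mp ht with h | rfl
      · exact Or.inl ⟨t, h, rfl⟩
      · exact Or.inr (by rw [bb, ih])

theorem bound (hn : 2 ≤ n) (hS : ∀ v : V, ∃ i, v ∈ LL μ S i) (A : Finset (Fin n))
    (hA : 1 ≤ A.card)
    (hdist : ∀ x : Fin n → V, ∀ i ∈ A, ∀ i' ∈ A, i ≠ i' → x i = x i' → μ x = 0) (j : ℕ)
    (hj : ∀ t ≤ j, UU μ S hS t ≠ ⊤) :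
    mm μ S hS j ≤ genFib A.card (expo n A.card) (j + 1) := by
  classical
  induction j using Nat.strong_induction_on with
  | _ j ih =>
  set a := A.card with ha
  have han : a ≤ n := by
    rw [ha]; exact (Finset.card_le_univ A).trans (by simp)
  have he : 1 ≤ expo n a 0 := by simp [expo]
  set F := genFib a (expo n a) with hF
  have hFmono : Monotone F := genFib_mono hA he
  obtain ⟨h1, h2, h3⟩ := pick_spec hS _ (hj j le_rfl)
  change IsWord μ S (mm μ S hS j) (bb μ S hS j) at h1
  change bb μ S hS j ∉ _ at h2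
  change ∀ l v, l < mm μ S hS j → _ at h3
  generalize hm : mm μ S hS j = m at h1 h3
  generalize hb : bb μ S hS j = b at h1 h2
  cases h1 with
  | base s hs => exact genFib_pos hA he _
  | op w l hl =>
    have hl1 : ∀ i, 1 ≤ l i := fun i => word_pos (by omega) (hl i)
    have hlm : ∀ i, l i < ∑ i, l i := by
      intro i
      obtain ⟨i', hi'⟩ : ∃ i' : Fin n, i' ≠ i := by
        have : Nontrivial (Fin n) := Fin.nontrivial_iff_two_le.mpr hn
        exact exists_ne i
      exact Finset.single_lt_sum hi' (Finset.mem_univ _) (Finset.mem_univ _) (hl1 i')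
        (fun _ _ _ => Nat.zero_le _)
    -- the factors are combinations of short chosen words
    have hw : ∀ i, w i ∈ Submodule.span K {v | ∃ t < j, v = bb μ S hS t ∧ mm μ S hS t ≤ l i} := by
      intro i
      have hex : ∃ s, l i < mm μ S hS s := ⟨j, by rw [hm]; exact hlm i⟩
      have hsj : Nat.find hex ≤ j := Nat.find_min' hex (by rw [hm]; exact hlm i)
      have hmin : ∀ t < Nat.find hex, mm μ S hS t ≤ l i := fun t ht =>
        not_lt.mp (Nat.find_min hex ht)
      obtain ⟨-, -, h5⟩ := pick_spec hS _ (hj (Nat.find hex) hsj)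
      have h6 := h5 (l i) (w i) (Nat.find_spec hex) (hl i)
      rw [UU_eq] at h6
      refine Submodule.span_mono ?_ h6
      rintro v ⟨t, ht, rfl⟩
      exact ⟨t, by omega, rfl, hmin t ht⟩
    have hx : ∃ x : Fin n → V, (∀ i, ∃ t < j, x i = bb μ S hS t ∧ mm μ S hS t ≤ l i) ∧
        μ x ∉ UU μ S hS j := by
      by_contra hcon
      push Not at hcon
      exact h2 (expand _ _ (fun x hx => hcon x hx) w hw)
    obtain ⟨x, hx, hxU⟩ := hx
    choose t ht hxt hmt using hx
    have hinj : Set.InjOn t (A : Set (Fin n)) := by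
      intro i hi i' hi' hii
      by_contra hne
      apply hxU
      rw [hdist x i hi i' hi' hne (by rw [hxt, hxt, hii])]
      exact Submodule.zero_mem _
    have hword : IsWord μ S (∑ i, mm μ S hS (t i)) (μ x) := by
      apply IsWord.op
      intro i
      rw [hxt i]
      exact (pick_spec hS _ (hj (t i) (ht i).le)).1
    have hge : (∑ i, l i) ≤ ∑ i, mm μ S hS (t i) := by
      by_contra hcon
      exact hxU (h3 _ _ (not_le.mp hcon) hword)
    refine hge.trans ?_
    have hle : (∑ i, mm μ S hS (t i)) ≤ ∑ i, F (t i + 1) := by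
      apply Finset.sum_le_sum
      intro i _
      exact ih (t i) (ht i) (fun s hs => hj s (by have := ht i; omega))
    refine hle.trans ?_
    rw [← Finset.sum_add_sum_compl A]
    have himg : (A.image t).card = a := Finset.card_image_of_injOn hinj
    have hsumA : ∑ i ∈ A, F (t i + 1) ≤ ∑ s ∈ Finset.range a, F (j - (s + 1) + 1) := by
      have h7 := sum_top (fun t => F (t + 1)) (fun p q hpq => hFmono (by omega)) a j (A.image t)
        himg (by
          intro s hs
          obtain ⟨i, -, rfl⟩ := Finset.mem_image.mp hs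
          exact ht i)
      rwa [Finset.sum_image hinj] at h7
    have haj : a ≤ j := by
      have h8 : A.image t ⊆ Finset.range j := by
        intro s hs
        obtain ⟨i, -, rfl⟩ := Finset.mem_image.mp hs
        exact Finset.mem_range.mpr (ht i)
      have := Finset.card_le_card h8
      rwa [himg, Finset.card_range] at this
    have hsumC : ∑ i ∈ Aᶜ, F (t i + 1) ≤ (n - a) * F j := by
      have h9 : (Aᶜ).card = n - a := by rw [Finset.card_compl, Fintype.card_fin]
      rw [← h9, ← smul_eq_mul]
      apply Finset.sum_le_card_nsmul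
      intro i _
      exact hFmono (by have := ht i; omega)
    refine (Nat.add_le_add hsumA hsumC).trans (le_of_eq ?_)
    rw [hF, genFib_large (show a < j + 1 by omega), ← hF]
    obtain ⟨a', ha'⟩ : ∃ a', a = a' + 1 := ⟨a - 1, by omega⟩
    rw [ha', Finset.sum_range_succ', Finset.sum_range_succ', ← ha']
    have e1 : ∀ s ∈ Finset.range a', F (j - (s + 1 + 1) + 1) =
        expo n a (s + 1) * F (j + 1 - (s + 1 + 1)) := by
      intro s hs
      have := Finset.mem_range.mp hs
      rw [expo, if_neg (by omega), one_mul]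
      congr 1
      omega
    rw [Finset.sum_congr rfl e1]
    have e2 : expo n a 0 = n - a + 1 := by simp [expo]
    rw [e2, zero_add, show j - 1 + 1 = j by omega, show j + 1 - 1 = j by omega]
    ring

theorem main [FiniteDimensional K V] (hn : 2 ≤ n) (hS : ∀ v : V, ∃ i, v ∈ LL μ S i)
    (A : Finset (Fin n)) (hA : 1 ≤ A.card)
    (hdist : ∀ x : Fin n → V, ∀ i ∈ A, ∀ i' ∈ A, i ≠ i' → x i = x i' → μ x = 0)
    (hk : 1 ≤ Module.finrank K V) :
    lenS μ S ≤ genFib A.card (expo n A.card) (Module.finrank K V) := by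
  classical
  have hlow : ∀ j, (∀ t < j, UU μ S hS t ≠ ⊤) → j ≤ Module.finrank K (UU μ S hS j) := by
    intro j
    induction j with
    | zero => intro _; exact Nat.zero_le _
    | succ j ih =>
      intro h
      have h1 := ih (fun t ht => h t (by omega))
      have h2 := (pick_spec hS _ (h j (by omega))).2.1
      have h3 : UU μ S hS j < UU μ S hS (j + 1) := by
        rw [UU]
        refine lt_of_le_of_ne le_sup_left ?_
        intro heq
        apply h2
        have h6 : (pick μ S hS (UU μ S hS j)).1 ∈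
            UU μ S hS j ⊔ Submodule.span K {(pick μ S hS (UU μ S hS j)).1} :=
          Submodule.mem_sup_right (Submodule.mem_span_singleton_self _)
        exact (le_of_eq heq.symm) h6
      have h4 := Submodule.finrank_lt_finrank_of_lt h3
      omega
  have hex : ∃ j, UU μ S hS j = ⊤ := by
    by_contra hcon
    push Not at hcon
    have h1 := hlow (Module.finrank K V + 1) (fun t _ => hcon t)
    have h2 := Submodule.finrank_le (UU μ S hS (Module.finrank K V + 1))
    omega
  set k := Nat.find hex with hkdef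
  have hktop : UU μ S hS k = ⊤ := Nat.find_spec hex
  have hkmin : ∀ t < k, UU μ S hS t ≠ ⊤ := fun t ht => Nat.find_min hex ht
  have hkle : k ≤ Module.finrank K V := by
    have h1 := hlow k hkmin
    rwa [hktop, finrank_top] at h1
  have hkpos : 0 < k := by
    rcases Nat.eq_zero_or_pos k with h | h
    · rw [h] at hktop
      have h0 : (⊥ : Submodule K V) = ⊤ := hktop
      have h5 : Module.finrank K (⊤ : Submodule K V) = 0 := by rw [← h0, finrank_bot]
      rw [finrank_top] at h5
      omega
    · exact h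
  have hb := bound hn hS A hA hdist (k - 1) (fun t ht => hkmin t (by omega))
  rw [show k - 1 + 1 = k by omega] at hb
  have hmono : ∀ t < k, mm μ S hS t ≤ mm μ S hS (k - 1) := by
    intro t ht
    by_contra hcon
    obtain ⟨h1, h2, -⟩ := pick_spec hS _ (hkmin (k - 1) (by omega))
    obtain ⟨-, -, h3⟩ := pick_spec hS _ (hkmin t ht)
    have h4 := h3 _ _ (not_le.mp hcon) h1
    apply h2
    have h5 : UU μ S hS t ≤ UU μ S hS (k - 1) := by
      rw [UU_eq, UU_eq]
      apply Submodule.span_mono
      rintro v ⟨s, hs, rfl⟩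
      exact ⟨s, by omega, rfl⟩
    exact h5 h4
  have hLL : LL μ S (mm μ S hS (k - 1)) = ⊤ := by
    rw [eq_top_iff, ← hktop, UU_eq, Submodule.span_le]
    rintro v ⟨t, ht, rfl⟩
    apply Submodule.subset_span
    exact ⟨_, hmono t ht, (pick_spec hS _ (hkmin t ht)).1⟩
  have h1 : 1 ≤ mm μ S hS (k - 1) :=
    word_pos (by omega) (pick_spec hS _ (hkmin (k - 1) (by omega))).1
  exact (Nat.sInf_le ⟨h1, hLL⟩ : lenS μ S ≤ _).trans
    (hb.trans (genFib_mono hA (by simp [expo]) hkle))

end main

/-- Q1 holds: every `k`-dimensional `(A, C)`-commutative `n`-ary algebra over `ℂ` (indeed over any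
field in which `2 ≠ 0`) has length at most `F_{N_{n,a}}(k)`. -/
theorem result (K : Type) [Field K] (h2 : (2 : K) ≠ 0) (V : Type) [AddCommGroup V] [Module K V]
    [FiniteDimensional K V] (n : ℕ) (hn : 2 ≤ n) (A C : Finset (Fin n)) (_hAC : Disjoint A C)
    (_hA : A.card ≠ 1) (k : ℕ) (hk : 1 ≤ k) (hV : Module.finrank K V = k)
    (μ : MultilinearMap K (fun _ : Fin n => V) V) (hμ : ACCommutative μ A C) :
    algLength μ ≤ (genFib (aNum A) (expo n (aNum A)) k : ℕ) := by
  unfold algLength
  refine iSup_le fun S => iSup_le fun hS => ?_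
  rw [Nat.cast_le]
  subst hV
  by_cases hA2 : 2 ≤ A.card
  · have ha : aNum A = A.card := by simp [aNum, hA2]
    rw [ha]
    refine main hn hS.2 A (by omega) ?_ hk
    intro x i hi i' hi' hne hx
    have h1 := hμ.1 i hi i' hi' hne x
    have h3 : x ∘ Equiv.swap i i' = x := by
      funext s
      rw [Function.comp_apply]
      by_cases hs : s = i
      · rw [hs, Equiv.swap_apply_left, hx]
      · by_cases hs' : s = i'
        · rw [hs', Equiv.swap_apply_right, hx]
        · rw [Equiv.swap_apply_of_ne_of_ne hs hs']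
    rw [h3] at h1
    have h4 : (2 : K) • μ x = 0 := by
      rw [two_smul]
      nth_rewrite 2 [h1]
      exact add_neg_cancel _
    exact (smul_eq_zero.mp h4).resolve_left h2
  · have ha : aNum A = ({⟨0, by omega⟩} : Finset (Fin n)).card := by simp [aNum, hA2]
    rw [ha]
    refine main hn hS.2 {⟨0, by omega⟩} (by simp) ?_ hk
    intro x i hi i' hi' hne hx
    rw [Finset.mem_singleton] at hi hi'
    exact absurd (hi.trans hi'.symm) hne

end Pool.Agent.Results.MP_dca5dd_al.LengthBound
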